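import Mathlib

namespace Pool.Agent.Results.MP_776d16_ag.Hyperplanes

open MvPolynomial

/-- Complex projective space of dimension `n`. -/
abbrev PP (n : ℕ) : Type := Projectivization ℂ (Fin (n + 1) → ℂ)

/-- Data of a morphism from the projective line to `PP n`: an `(n+1)`-tuple of homogeneous
binary forms of a common degree without common zero. -/
structure LineMap (n : ℕ) where
  deg : ℕ
  form : Fin (n + 1) → MvPolynomial (Fin 2) ℂ
  homog : ∀ i, (form i).IsHomogeneous deg
  noCommonZero : ∀ v : Fin 2 → ℂ, v ≠ 0 → (fun i => eval v (form i)) ≠ 0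

/-- The image of the morphism. -/
def LineMap.image {n : ℕ} (f : LineMap n) : Set (PP n) :=
  {P | ∃ (v : Fin 2 → ℂ) (hv : v ≠ 0),
    P = Projectivization.mk ℂ (fun i => eval v (f.form i)) (f.noCommonZero v hv)}

/-- A rational curve: the image of a nonconstant morphism from the projective line. -/
def IsRationalCurve {n : ℕ} (C : Set (PP n)) : Prop :=
  ∃ f : LineMap n, C = f.image ∧ C.Nontrivial

/-- Log rational connectedness of the pair consisting of `PP n` and a closed set `D`. -/
def LogRationallyConnected {n : ℕ} (D : Set (PP n)) : Prop :=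
  ∀ p q : PP n, q ∉ D →
    ∃ C : Set (PP n), IsRationalCurve C ∧ p ∈ C ∧ q ∈ C ∧ ¬ C ⊆ D ∧ ∃ x, C ∩ D = {x}

/-- The union of the first `m` coordinate hyperplanes of `PP n`. -/
def hyperplanes (n m : ℕ) : Set (PP n) :=
  {P | ∃ i : Fin (n + 1), (i : ℕ) < m ∧ P.rep i = 0}

theorem rep_mk_zero_iff {n : ℕ} (v : Fin (n + 1) → ℂ) (hv : v ≠ 0) (i : Fin (n + 1)) :
    (Projectivization.mk ℂ v hv).rep i = 0 ↔ v i = 0 := by
  obtain ⟨a, ha⟩ := Projectivization.exists_smul_eq_mk_rep ℂ v hv
  rw [← ha]
  simp [Units.smul_def]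

theorem eval_smul_of_homog {d : ℕ} {F : MvPolynomial (Fin 2) ℂ} (hF : F.IsHomogeneous d)
    (c : ℂ) (v : Fin 2 → ℂ) : eval (fun i => c * v i) F = c ^ d * eval v F := by
  rw [eval_eq, eval_eq, Finset.mul_sum]
  refine Finset.sum_congr rfl fun s hs => ?_
  have h1 : s.degree = d := by
    have := hF (mem_support_iff.mp hs)
    rw [Finsupp.weight_apply] at this
    simpa [Finsupp.degree_apply, Finsupp.sum] using this
  have h2 : ∏ i ∈ s.support, (c * v i) ^ s i
      = c ^ d * ∏ i ∈ s.support, v i ^ s i := by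
    simp_rw [mul_pow]
    rw [Finset.prod_mul_distrib, Finset.prod_pow_eq_pow_sum]
    congr 2
  rw [h2]; ring

/-- A binary form of positive degree has a nontrivial zero. -/
theorem exists_zero {d : ℕ} (hd : 1 ≤ d) {F : MvPolynomial (Fin 2) ℂ}
    (hF : F.IsHomogeneous d) : ∃ v : Fin 2 → ℂ, v ≠ 0 ∧ eval v F = 0 := by
  by_contra hcon
  push Not at hcon
  -- dehomogenise in both charts
  let g : Polynomial ℂ := aeval ![Polynomial.X, 1] F
  let h : Polynomial ℂ := aeval ![1, Polynomial.X] F
  have hg : ∀ x : ℂ, g.eval x = eval ![x, 1] F := by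
    intro x
    have e : (Polynomial.evalRingHom x).comp
        (aeval ![Polynomial.X, (1 : Polynomial ℂ)] : MvPolynomial (Fin 2) ℂ →ₐ[ℂ] _).toRingHom
        = eval ![x, 1] := by
      apply MvPolynomial.ringHom_ext
      · intro r; simp
      · intro i; fin_cases i <;> simp
    exact RingHom.congr_fun e F
  have hh : ∀ x : ℂ, h.eval x = eval ![1, x] F := by
    intro x
    have e : (Polynomial.evalRingHom x).comp
        (aeval ![(1 : Polynomial ℂ), Polynomial.X] : MvPolynomial (Fin 2) ℂ →ₐ[ℂ] _).toRingHom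
        = eval ![1, x] := by
      apply MvPolynomial.ringHom_ext
      · intro r; simp
      · intro i; fin_cases i <;> simp
    exact RingHom.congr_fun e F
  have hgdeg : g.degree = 0 := by
    by_contra hne
    obtain ⟨x, hx⟩ := IsAlgClosed.exists_root g hne
    rw [Polynomial.IsRoot.def, hg] at hx
    refine hcon ![x, 1] ?_ hx
    intro h0
    have := congrFun h0 1
    simp at this
  obtain ⟨a, ha⟩ : ∃ a, g = Polynomial.C a := ⟨_, Polynomial.eq_C_of_degree_eq_zero hgdeg⟩
  have key : ∀ y : ℂ, y ≠ 0 → h.eval y = a * y ^ d := by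
    intro y hy
    rw [hh]
    have : (![1, y] : Fin 2 → ℂ) = fun i => y * (![y⁻¹, 1] : Fin 2 → ℂ) i := by
      funext i; fin_cases i <;> simp [hy]
    rw [this, eval_smul_of_homog hF, ← hg, ha]
    simp [mul_comm]
  have heq : h = Polynomial.C a * Polynomial.X ^ d := by
    apply Polynomial.eq_of_infinite_eval_eq
    have : ({0}ᶜ : Set ℂ).Infinite := (Set.finite_singleton (0 : ℂ)).infinite_compl
    refine this.mono ?_
    intro y hy
    simp only [Set.mem_ofPred_eq]
    rw [key y hy]; simp
  have h0 : eval ![1, 0] F = 0 := by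
    rw [← hh, heq]
    simp
    right; omega
  refine hcon ![1, 0] ?_ h0
  intro h1
  have := congrFun h1 0
  simp at this

/-- The common degree of a nonconstant map is positive. -/
theorem deg_pos {n : ℕ} (f : LineMap n) (hf : f.image.Nontrivial) : 1 ≤ f.deg := by
  by_contra hlt
  have hd : f.deg = 0 := by omega
  obtain ⟨P, ⟨v, hv, rfl⟩, Q, ⟨w, hw, rfl⟩, hPQ⟩ := hf
  apply hPQ
  have : ∀ i, eval v (f.form i) = eval w (f.form i) := by
    intro i
    have h1 := f.homog i
    rw [hd] at h1
    have h2 : (f.form i).totalDegree = 0 := by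
      have := h1.totalDegree_le
      omega
    rw [MvPolynomial.totalDegree_eq_zero_iff_eq_C] at h2
    rw [h2]; simp
  congr 1
  funext i
  exact this i

theorem not_logRC (n m : ℕ) (hm : 2 ≤ m) (hmn : m ≤ n) :
    ¬ LogRationallyConnected (hyperplanes n m) := by
  intro hL
  -- `p` lies on the hyperplane `x_0 = 0` and on no other one; `q` lies on none
  let vp : Fin (n + 1) → ℂ := fun i => if (i : ℕ) = 0 then 0 else 1
  let vq : Fin (n + 1) → ℂ := fun _ => 1
  have hvp : vp ≠ 0 := by
    intro h
    have := congrFun h ⟨1, by omega⟩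
    simp [vp] at this
  have hvq : vq ≠ 0 := by
    intro h
    have := congrFun h 0
    simp [vq] at this
  let p : PP n := Projectivization.mk ℂ vp hvp
  let q : PP n := Projectivization.mk ℂ vq hvq
  have hpD : p ∈ hyperplanes n m := ⟨0, by simp; omega, by
    change (Projectivization.mk ℂ vp hvp).rep 0 = 0
    rw [rep_mk_zero_iff]; simp [vp]⟩
  have hqD : q ∉ hyperplanes n m := by
    rintro ⟨i, -, hi⟩
    change (Projectivization.mk ℂ vq hvq).rep i = 0 at hi
    rw [rep_mk_zero_iff] at hi
    simp [vq] at hi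
  obtain ⟨C, ⟨f, rfl, hnt⟩, hpC, hqC, -, x, hx⟩ := hL p q hqD
  have hpx : p = x := by
    have : p ∈ f.image ∩ hyperplanes n m := ⟨hpC, hpD⟩
    rw [hx] at this
    exact this
  obtain ⟨v, hv, hv0⟩ := exists_zero (deg_pos f hnt) (f.homog ⟨1, by omega⟩)
  let P : PP n := Projectivization.mk ℂ (fun i => eval v (f.form i)) (f.noCommonZero v hv)
  have hP1 : P.rep ⟨1, by omega⟩ = 0 := (rep_mk_zero_iff _ _ _).mpr hv0
  have hPD : P ∈ f.image ∩ hyperplanes n m := ⟨⟨v, hv, rfl⟩, ⟨⟨1, by omega⟩, by simp; omega, hP1⟩⟩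
  rw [hx] at hPD
  have hPp : P = p := by rw [hpx]; exact hPD
  rw [hPp] at hP1
  change (Projectivization.mk ℂ vp hvp).rep _ = 0 at hP1
  rw [rep_mk_zero_iff] at hP1
  simp [vp] at hP1

theorem hyperplanes_one_iff {n : ℕ} (P : PP n) : P ∈ hyperplanes n 1 ↔ P.rep 0 = 0 := by
  constructor
  · rintro ⟨i, hi, h⟩
    have : i = 0 := by
      apply Fin.ext
      simp only [Fin.val_zero]
      omega
    rwa [this] at h
  · intro h
    exact ⟨0, by simp, h⟩

/-- The line through two distinct points, one of which is off the hyperplane `x_0 = 0`. -/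
theorem line_through {n : ℕ} (p q : PP n) (hpq : p ≠ q) (hq : q ∉ hyperplanes n 1) :
    ∃ C : Set (PP n), IsRationalCurve C ∧ p ∈ C ∧ q ∈ C ∧ ¬ C ⊆ hyperplanes n 1 ∧
      ∃ x, C ∩ hyperplanes n 1 = {x} := by
  have hli : LinearIndependent ℂ ![p.rep, q.rep] := by
    rw [Projectivization.linearIndependent_pair_iff_ne]
    exact hpq
  have hpair := LinearIndependent.pair_iff.mp hli
  have hq0 : q.rep 0 ≠ 0 := fun h => hq ((hyperplanes_one_iff q).mpr h)
  let F : Fin (n + 1) → MvPolynomial (Fin 2) ℂ :=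
    fun i => C (p.rep i) * X 0 + C (q.rep i) * X 1
  have hev : ∀ (v : Fin 2 → ℂ) (i), eval v (F i) = v 0 * p.rep i + v 1 * q.rep i := by
    intro v i; simp [F, mul_comm]
  have hev' : ∀ (v : Fin 2 → ℂ), (fun i => eval v (F i)) = v 0 • p.rep + v 1 • q.rep := by
    intro v; funext i; rw [hev]; simp
  let f : LineMap n :=
    { deg := 1
      form := F
      homog := by
        intro i
        refine IsHomogeneous.add ?_ ?_
        · simpa using (isHomogeneous_C (Fin 2) (p.rep i)).mul (isHomogeneous_X ℂ (0 : Fin 2))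
        · simpa using (isHomogeneous_C (Fin 2) (q.rep i)).mul (isHomogeneous_X ℂ (1 : Fin 2))
      noCommonZero := by
        intro v hv h
        rw [hev'] at h
        obtain ⟨h0, h1⟩ := hpair _ _ h
        apply hv
        funext i; fin_cases i
        · exact h0
        · exact h1 }
  have hpC : p ∈ f.image := by
    refine ⟨![1, 0], ?_, ?_⟩
    · intro h
      have := congrFun h 0
      simp at this
    · have h1 : (fun i => eval ![1, 0] (f.form i)) = p.rep := by
        change (fun i => eval ![1, 0] (F i)) = _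
        rw [hev']; simp
      conv_lhs => rw [← Projectivization.mk_rep p]
      congr 1
      exact h1.symm
  have hqC : q ∈ f.image := by
    refine ⟨![0, 1], ?_, ?_⟩
    · intro h
      have := congrFun h 1
      simp at this
    · have h1 : (fun i => eval ![0, 1] (f.form i)) = q.rep := by
        change (fun i => eval ![0, 1] (F i)) = _
        rw [hev']; simp
      conv_lhs => rw [← Projectivization.mk_rep q]
      congr 1
      exact h1.symm
  let v0 : Fin 2 → ℂ := ![q.rep 0, - p.rep 0]
  have hv0 : v0 ≠ 0 := by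
    intro h
    have := congrFun h 0
    simp [v0] at this
    exact hq0 this
  refine ⟨f.image, ⟨f, rfl, p, hpC, q, hqC, hpq⟩, hpC, hqC, fun h => hq (h hqC),
    Projectivization.mk ℂ (fun i => eval v0 (f.form i)) (f.noCommonZero v0 hv0), ?_⟩
  ext P
  simp only [Set.mem_inter_iff, Set.mem_singleton_iff, hyperplanes_one_iff]
  constructor
  · rintro ⟨⟨v, hv, rfl⟩, hP⟩
    rw [rep_mk_zero_iff] at hP
    have hP' : v 0 * p.rep 0 + v 1 * q.rep 0 = 0 := by
      rw [← hev]; exact hP
    rw [Projectivization.mk_eq_mk_iff']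
    refine ⟨v 0 / q.rep 0, ?_⟩
    have e1 : (fun i => eval v0 (f.form i)) = v0 0 • p.rep + v0 1 • q.rep := hev' v0
    have e2 : (fun i => eval v (f.form i)) = v 0 • p.rep + v 1 • q.rep := hev' v
    rw [e1, e2]
    funext i
    simp only [v0, Pi.smul_apply, Pi.add_apply, smul_eq_mul, Matrix.cons_val_zero,
      Matrix.cons_val_one]
    have e3 : v 1 = - (v 0 * p.rep 0) / q.rep 0 := by
      field_simp
      linear_combination hP'
    rw [e3]
    field_simp
  · rintro rfl
    refine ⟨⟨v0, hv0, rfl⟩, ?_⟩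
    rw [rep_mk_zero_iff]
    change eval v0 (F 0) = 0
    rw [hev]
    simp [v0]
    ring

theorem logRC_one (n : ℕ) (hn : 1 ≤ n) : LogRationallyConnected (hyperplanes n 1) := by
  intro p q hq
  by_cases hpq : p = q
  · subst hpq
    -- choose any other point
    let v1 : Fin (n + 1) → ℂ := Pi.single ⟨1, by omega⟩ 1
    have hv1 : v1 ≠ 0 := by
      intro h
      have := congrFun h ⟨1, by omega⟩
      simp [v1] at this
    have hne : Projectivization.mk ℂ v1 hv1 ≠ p := by
      intro h
      apply hq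
      rw [← h, hyperplanes_one_iff, rep_mk_zero_iff]
      simp [v1]
    obtain ⟨C, h1, -, h3, h4, h5⟩ := line_through _ p hne hq
    exact ⟨C, h1, h3, h3, h4, h5⟩
  · exact line_through p q hpq hq

/-- For `1 ≤ m ≤ n` the log Fano pair `(PP n, H_1 + ... + H_m)` is log rationally connected
exactly when `m = 1`. -/
theorem result : ∀ n m : ℕ, 1 ≤ m → m ≤ n →
    (LogRationallyConnected (hyperplanes n m) ↔ m = 1) := by
  intro n m h1 h2
  constructor
  · intro h
    by_contra hne
    exact not_logRC n m (by omega) h2 h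
  · rintro rfl
    exact logRC_one n (by omega)

end Pool.Agent.Results.MP_776d16_ag.Hyperplanes
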